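import Pool.Agent.ZRT.StmtsA
import Pool.Agent.Helper36_RF.Chr
import Pool.Agent.Helper9_RF.Sym
import Pool.Agent.Helper5_RF.Common

/-!
# ZRT, row RNB: `|K| ≤ 1` bounds the Jacobi operator `v ↦ R(T,v)T` (helper9)
-/

noncomputable section

open scoped ContDiff Topology RealInnerProductSpace
set_option maxSynthPendingDepth 3
open Set

namespace Pool.Agent.ZRT.H9

open Pool.Agent.RF Pool.Agent.MVS

/-- Cauchy-Schwarz type inequality: a symmetric form bounded by a positive semidefinite form. -/
theorem quad_cs {a b c : ℝ} (ha : 0 ≤ a) (hb : 0 ≤ b)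
    (h : ∀ s : ℝ, 4 * s * c ≤ 2 * a + 2 * s ^ 2 * b) : c ^ 2 ≤ a * b := by
  rcases hb.eq_or_lt with hb0 | hb0
  · have hc : c = 0 := by
      by_contra hc
      have h1 := h ((a + 1) / c)
      rw [← hb0] at h1
      have h2 : 4 * ((a + 1) / c) * c = 4 * (a + 1) := by field_simp
      rw [h2] at h1
      nlinarith
    rw [hc, ← hb0]; simp
  · have h1 := h (c / b)
    have h2 : 4 * (c / b) * c = 4 * (c ^ 2 / b) := by field_simp
    have h3 : 2 * (c / b) ^ 2 * b = 2 * (c ^ 2 / b) := by field_simp
    rw [h2, h3] at h1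
    have h4 : c ^ 2 / b ≤ a := by linarith
    rwa [div_le_iff₀ hb0] at h4

theorem rnb : RnbStatement := by
  intro G hG hle hge x hx T hT v w
  have hM := hG.metric
  have hC := chrStatement
  have hS := Pool.Agent.RF.H9.sym hC (Fin 5) G (Om (Fin 5)) hM x hx
  obtain ⟨hsk, -, hms, hpair, -, -⟩ := hS
  have hpos : ∀ u, 0 ≤ G x u u := by
    intro u
    by_cases hu : u = 0
    · subst hu; simp
    · exact (hM.pos x hx u hu).le
  have hsymm : ∀ u u', G x (riem G x T u T) u' = G x (riem G x T u' T) u := fun u u' =>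
    hpair T u T u'
  have hadd : ∀ u u', riem G x T (u + u') T = riem G x T u T + riem G x T u' T := fun u u' =>
    Pool.Agent.RF.H5.riem_add2 hC hM hx T u u' T
  have hsmul : ∀ (c : ℝ) u, riem G x T (c • u) T = c • riem G x T u T := fun c u =>
    Pool.Agent.RF.H5.riem_smul2 hC hM hx c T u T
  have hb : ∀ u, |G x (riem G x T u T) u| ≤ G x u u := by
    intro u
    have h1 := hle x hx T u
    have h2 := hge x hx T u
    have h3 := hms T u u T
    rw [hT] at h1 h2
    rw [abs_le]
    constructor
    · nlinarith [sq_nonneg (G x T u)]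
    · nlinarith [sq_nonneg (G x T u)]
  have key : ∀ s : ℝ, 4 * s * G x (riem G x T v T) w ≤ 2 * G x v v + 2 * s ^ 2 * G x w w := by
    intro s
    have h1 := (abs_le.mp (hb (v + s • w))).2
    have h2 := (abs_le.mp (hb (v + (-s) • w))).1
    rw [hadd, hsmul] at h1 h2
    have hvw := hM.symm x hx v w
    have hs := hsymm v w
    simp only [map_add, map_smul, ContinuousLinearMap.add_apply, ContinuousLinearMap.smul_apply,
      smul_eq_mul] at h1 h2
    rw [← hs, hvw] at h1 h2
    nlinarith [h1, h2]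
  exact quad_cs (hpos v) (hpos w) key

end Pool.Agent.ZRT.H9
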